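import Pool.Graph.R_seed8.Helper475.OCMain
import Pool.Agent.KS6_48.OpenImg.ArcLifts

set_option autoImplicit false

namespace Pool.Agent.Results.MP_8afd67_gt.WhichAlternative

open Pool.Agent.Helper475.OC
open Set Topology

/-- `X` admits maps onto the circle with fibres of arbitrarily small diameter. -/
def CircleLike (X : Type) [MetricSpace X] : Prop :=
  ∀ ε : ℝ, 0 < ε → ∃ f : X → Circle, Continuous f ∧ Function.Surjective f ∧
    ∀ z : Circle, Metric.diam (f ⁻¹' {z}) < ε

/-- `X` admits maps onto `[0,1]` with fibres of arbitrarily small diameter. -/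
def ArcLike (X : Type) [MetricSpace X] : Prop :=
  ∀ ε : ℝ, 0 < ε → ∃ f : X → unitInterval, Continuous f ∧ Function.Surjective f ∧
    ∀ t : unitInterval, Metric.diam (f ⁻¹' {t}) < ε

/-- A circle valued map is inessential: it is the exponential of a continuous real function. -/
def Inessential {X : Type} [TopologicalSpace X] (φ : X → Circle) : Prop :=
  ∃ θ : X → ℝ, Continuous θ ∧ ∀ x, φ x = Circle.exp (θ x)

/-- the identification of the two circles -/
noncomputable def c : T ≃ₜ Circle := AddCircle.homeomorphCircle (one_ne_zero)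

theorem c_coe (r : ℝ) : c ((r : ℝ) : T) = Circle.exp (2 * Real.pi * r) := by
  show AddCircle.homeomorphCircle (one_ne_zero) ((r : ℝ) : T) = _
  rw [AddCircle.homeomorphCircle_apply, AddCircle.toCircle_apply_mk]
  simp

theorem iness_iff {X : Type} [TopologicalSpace X] (φ : X → Circle) :
    Inessential φ ↔ Lifts (fun x => c.symm (φ x)) := by
  constructor
  · rintro ⟨θ, hθ, h⟩
    refine ⟨fun x => θ x / (2 * Real.pi), hθ.div_const _, fun x => ?_⟩
    rw [Homeomorph.symm_apply_eq, c_coe, h x]
    congr 1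
    have := Real.pi_pos
    field_simp
  · rintro ⟨q, hq, h⟩
    refine ⟨fun x => 2 * Real.pi * q x, continuous_const.mul hq, fun x => ?_⟩
    rw [← c_coe, ← h x, Homeomorph.apply_symm_apply]

theorem iness_iff' {X : Type} [TopologicalSpace X] (χ : X → T) :
    Lifts χ ↔ Inessential (fun x => c (χ x)) := by
  rw [iness_iff]
  simp only [Homeomorph.symm_apply_apply]

theorem CL_of {X : Type} [MetricSpace X] [CompactSpace X] (h : CircleLike X) : CL X :=
  M25.CL_of_circle h

theorem arc_iness {X : Type} [MetricSpace X] [CompactSpace X] (h : ArcLike X) (φ : X → Circle)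
    (hφ : Continuous φ) : Inessential φ := by
  rw [iness_iff]
  apply Pool.Agent.KS6_48.OpenImg.lifts_of_arc _ (c.symm.continuous.comp hφ)
  intro ε hε
  obtain ⟨f, hf, hs, hd⟩ := h ε hε
  refine ⟨fun x => (f x : ℝ), continuous_subtype_val.comp hf, ?_, ?_⟩
  · ext t
    constructor
    · rintro ⟨x, rfl⟩
      exact (f x).2
    · intro ht
      obtain ⟨x, hx⟩ := hs ⟨t, ht⟩
      exact ⟨x, by simp [hx]⟩
  · intro x x' hxx
    have e1 : f x = f x' := Subtype.ext hxx
    have hb : Bornology.IsBounded (f ⁻¹' {f x}) := isCompact_univ.isBounded.subset (subset_univ _)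
    exact lt_of_le_of_lt (Metric.dist_le_diam_of_mem hb (by simp) (by simp [e1])) (hd (f x))

section

variable {X Y : Type} [MetricSpace X] [CompactSpace X] [MetricSpace Y]
  [CompactSpace Y]

/-- an open surjection detects inessential maps -/
theorem iness_comp (π : X → Y) (hc : Continuous π) (hs : Function.Surjective π)
    (ho : IsOpenMap π) (φ : Y → Circle) (h : Inessential (fun x => φ (π x))) :
    Inessential φ := by
  obtain ⟨θ, hθ, h⟩ := (iness_iff _).1 h
  exact (iness_iff _).2 (lifts_of_comp π hc hs ho (fun y => c.symm (φ y)) θ hθ h)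

/-- all circle valued maps inessential: the image is arc-like -/
theorem arc_of_iness [ConnectedSpace X] [ConnectedSpace Y] [Nontrivial Y] (π : X → Y)
    (hc : Continuous π) (hs : Function.Surjective π) (ho : IsOpenMap π) (hX : CircleLike X)
    (h1 : ∀ φ : Y → Circle, Continuous φ → Inessential φ) : ArcLike Y := by
  have h1' : ∀ φ : Y → T, Continuous φ → Lifts φ := fun φ hφ =>
    (iness_iff' φ).2 (h1 _ (c.continuous.comp hφ))
  intro ε hε
  refine Pool.Agent.KS6_48.OpenImg.normalise (fun ε hε => ?_) ε hε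
  by_cases h0 : ∃ ε₀ : ℝ, 0 < ε₀ ∧ ∀ p : X → T, Continuous p → Function.Surjective p →
      (∀ x x', p x = p x' → dist x x' < ε₀) → ¬ Lifts p
  · obtain ⟨ε₀, hε₀, hNL⟩ := h0
    exact caseII π hc hs ho (CL_of hX) ε₀ hε₀ hNL h1' ε hε
  · push Not at h0
    have huc : UniformContinuous π := CompactSpace.uniformContinuous_of_continuous hc
    obtain ⟨δ, hδ, hπ⟩ := Metric.uniformContinuous_iff.mp huc ε hε
    obtain ⟨p, hp, hps, hpf, q, hq, hpq⟩ := h0 δ hδ
    obtain ⟨m, hm, hm2⟩ := fiberMin π hc hs ho q hq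
    refine ⟨m, hm, ?_⟩
    intro y y' hyy
    obtain ⟨x, hx, hmx⟩ := hm2 y
    obtain ⟨x', hx', hmx'⟩ := hm2 y'
    rw [← hx, ← hx']
    apply hπ
    apply hpf
    rw [hpq x, hpq x', ← hmx, ← hmx', hyy]

/-- an essential circle valued map on a compact space makes every sufficiently fine map onto
the circle essential -/
theorem fine_essential (φ : Y → Circle) (hφ : Continuous φ) (h : ¬ Inessential φ) :
    ∃ ρ : ℝ, 0 < ρ ∧ ∀ f : Y → Circle, Continuous f → Function.Surjective f →
      (∀ z, Metric.diam (f ⁻¹' {z}) < ρ) → ¬ Inessential f := by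
  obtain ⟨ρ, hρ, hfac⟩ := M2.factor (fun y => c.symm (φ y)) (c.symm.continuous.comp hφ) 1 one_pos
  refine ⟨ρ, hρ, fun f hf hs hd hin => h ?_⟩
  obtain ⟨θ, hθ, hθ2⟩ := (iness_iff _).1 hin
  obtain ⟨d, β, hβ, hrel, -⟩ := hfac (fun y => c.symm (f y)) (c.symm.continuous.comp hf)
    (by
      intro t
      obtain ⟨y, hy⟩ := hs (c t)
      exact ⟨y, by simp only [hy, Homeomorph.symm_apply_apply]⟩)
    (by
      intro x x' hxx
      have e1 : f x = f x' := c.symm.injective hxx
      have hb : Bornology.IsBounded (f ⁻¹' {f x}) :=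
        isCompact_univ.isBounded.subset (subset_univ _)
      exact lt_of_le_of_lt (Metric.dist_le_diam_of_mem hb (by simp) (by simp [e1])) (hd (f x)))
  rw [iness_iff]
  refine ⟨fun y => d * θ y + β y, (continuous_const.mul hθ).add hβ, fun y => ?_⟩
  have e1 : c.symm (f y) = ((θ y : ℝ) : T) := hθ2 y
  have e2 : c.symm (φ y) = d • c.symm (f y) + ((β y : ℝ) : T) := hrel y
  show c.symm (φ y) = ((d * θ y + β y : ℝ) : T)
  rw [e2, e1, ← AddCircle.coe_zsmul, zsmul_eq_mul, AddCircle.coe_add]

end

/-- Let `g : X → Y` be an open mapping of a circle-like continuum onto a nondegenerate continuum.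
The two alternatives of the problem are decided by the circle valued maps of `Y`.  (1) `Y` is
arc-like iff every map `Y → S¹` is inessential, (2) iff every map `Y → S¹` becomes inessential
after composition with `g`.  (3) If `Y` is not arc-like, it is circle-like, and all sufficiently
fine maps of `Y` onto the circle are essential, also after composition with `g`.  (4) In
particular `Y` is arc-like if all maps `X → S¹` are inessential, e.g. if `X` is arc-like. -/
theorem result (X Y : Type) [MetricSpace X] [CompactSpace X] [ConnectedSpace X]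
    [MetricSpace Y] [CompactSpace Y] [ConnectedSpace Y] [Nontrivial Y]
    (g : X → Y) (hc : Continuous g) (hs : Function.Surjective g) (ho : IsOpenMap g)
    (hX : CircleLike X) :
    (ArcLike Y ↔ ∀ φ : Y → Circle, Continuous φ → Inessential φ) ∧
    (ArcLike Y ↔ ∀ φ : Y → Circle, Continuous φ → Inessential (fun x => φ (g x))) ∧
    (¬ ArcLike Y → CircleLike Y ∧ ∃ ρ : ℝ, 0 < ρ ∧ ∀ f : Y → Circle, Continuous f →
      Function.Surjective f → (∀ z, Metric.diam (f ⁻¹' {z}) < ρ) →
        ¬ Inessential f ∧ ¬ Inessential (fun x => f (g x))) ∧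
    ((∀ ψ : X → Circle, Continuous ψ → Inessential ψ) → ArcLike Y) ∧
    (ArcLike X → ArcLike Y) := by
  have A : ArcLike Y ↔ ∀ φ : Y → Circle, Continuous φ → Inessential φ :=
    ⟨fun h φ hφ => arc_iness h φ hφ, fun h => arc_of_iness g hc hs ho hX h⟩
  have B : (∀ ψ : X → Circle, Continuous ψ → Inessential ψ) → ArcLike Y := fun h =>
    A.2 fun φ hφ => iness_comp g hc hs ho φ (h _ (hφ.comp hc))
  refine ⟨A, ⟨fun h φ hφ => ?_, fun h => A.2 fun φ hφ => iness_comp g hc hs ho φ (h φ hφ)⟩,
    ?_, B, fun h => B fun ψ hψ => arc_iness h ψ hψ⟩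
  · obtain ⟨θ, hθ, h2⟩ := A.1 h φ hφ
    exact ⟨fun x => θ (g x), hθ.comp hc, fun x => h2 (g x)⟩
  · intro hna
    have hcl : CircleLike Y := by
      rcases M25.conclude (fun ε hε => main g hc hs ho (CL_of hX) ε hε) with h | h
      · exact h
      · exact absurd h hna
    refine ⟨hcl, ?_⟩
    have hex : ∃ φ : Y → Circle, Continuous φ ∧ ¬ Inessential φ := by
      by_contra hcon
      push Not at hcon
      exact hna (A.2 hcon)
    obtain ⟨φ, hφ, hess⟩ := hex
    obtain ⟨ρ, hρ, hfine⟩ := fine_essential φ hφ hess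
    exact ⟨ρ, hρ, fun f hf hfs hd => ⟨hfine f hf hfs hd, fun hin =>
      hfine f hf hfs hd (iness_comp g hc hs ho f hin)⟩⟩

end Pool.Agent.Results.MP_8afd67_gt.WhichAlternative
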